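import Pool.Agent.TH954.G.Def

/-!
# Artin-Schreier extensions of finitely generated fields (job 5747)
-/

set_option autoImplicit false

namespace Pool.Agent.TH954.G

open Polynomial

theorem finite_of_bounded {p : ℕ} [Fact p.Prime] {R : Type} [CommRing R] [IsDomain R]
    (j : ZMod p →+* R) (d : ℕ)
    (h : ∀ x : R, ∃ g : (ZMod p)[X], g.Monic ∧ g.natDegree ≤ d ∧ (g.map j).eval x = 0) :
    Finite R := by
  classical
  have hG : {g : (ZMod p)[X] | g.natDegree ≤ d}.Finite := by
    have hinj : Set.InjOn (fun (g : (ZMod p)[X]) (i : Fin (d + 1)) => g.coeff i)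
        {g : (ZMod p)[X] | g.natDegree ≤ d} := by
      intro g hg g' hg' hgg
      ext n
      by_cases hn : n < d + 1
      · exact congrFun hgg ⟨n, hn⟩
      · rw [coeff_eq_zero_of_natDegree_lt (lt_of_le_of_lt hg (by omega)),
          coeff_eq_zero_of_natDegree_lt (lt_of_le_of_lt hg' (by omega))]
    exact Set.Finite.of_finite_image (Set.toFinite _) hinj
  have hU : (⋃ g ∈ {g : (ZMod p)[X] | g.natDegree ≤ d}, {x : R | g.Monic ∧
      (g.map j).eval x = 0}).Finite := by
    refine hG.biUnion fun g _ => ?_
    by_cases hm : g.Monic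
    · refine ((g.map j).roots.toFinset.finite_toSet).subset ?_
      rintro x ⟨_, hx⟩
      rw [Finset.mem_coe, Multiset.mem_toFinset, mem_roots (hm.map j).ne_zero]
      exact hx
    · refine Set.Finite.subset Set.finite_empty ?_
      rintro x ⟨h1, _⟩
      exact absurd h1 hm
  refine Set.finite_univ_iff.1 (hU.subset fun x _ => ?_)
  obtain ⟨g, h1, h2, h3⟩ := h x
  exact Set.mem_biUnion (show g ∈ {g : (ZMod p)[X] | g.natDegree ≤ d} from h2) ⟨h1, h3⟩

theorem as_core {p : ℕ} [Fact p.Prime] {P K L : Type} [CommRing P] [IsDomain P]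
    [IsIntegrallyClosed P] [Field K] [Field L] [Algebra P K] [IsFractionRing P K] [Algebra P L]
    [Algebra K L] [IsScalarTower P K L] [FiniteDimensional K L] (ev : P →+* ZMod p)
    (hev : Function.Surjective ev) : ∃ a : L, ∀ b : L, b ^ p - b ≠ a := by
  classical
  have hp : p ≠ 0 := (Fact.out : p.Prime).ne_zero
  have hinjPL : Function.Injective (algebraMap P L) := by
    rw [IsScalarTower.algebraMap_eq P K L]
    exact (algebraMap K L).injective.comp (IsFractionRing.injective P K)
  have hmax : (RingHom.ker ev).IsMaximal := RingHom.ker_isMaximal_of_surjective ev hev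
  have hinjB : Function.Injective (algebraMap P (integralClosure P L)) := by
    intro x y hxy
    exact hinjPL (congrArg (fun z : integralClosure P L => (z : L)) hxy)
  obtain ⟨Q, hQ, hQc⟩ := Ideal.exists_ideal_over_maximal_of_isIntegral
    (S := integralClosure P L) (RingHom.ker ev) (by
      rw [(RingHom.injective_iff_ker_eq_bot _).1 hinjB]
      exact bot_le)
  have hdom : IsDomain (integralClosure P L ⧸ Q) := (Ideal.Quotient.isDomain_iff_prime Q).2
    hQ.isPrime
  set φ : P →+* (integralClosure P L ⧸ Q) :=
    (Ideal.Quotient.mk Q).comp (algebraMap P (integralClosure P L)) with hφ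
  have hker : RingHom.ker ev ≤ RingHom.ker φ := by
    intro x hx
    rw [← hQc, Ideal.mem_comap] at hx
    rw [RingHom.mem_ker]
    exact Ideal.Quotient.eq_zero_iff_mem.2 hx
  obtain ⟨j, hj⟩ : ∃ j : ZMod p →+* (integralClosure P L ⧸ Q), j.comp ev = φ := by
    refine ⟨RingHom.liftOfSurjective ev hev ⟨φ, hker⟩, ?_⟩
    ext x
    exact RingHom.liftOfRightInverse_comp_apply ev _ (Function.rightInverse_surjInv hev) ⟨φ, hker⟩ x
  have hfin : Finite (integralClosure P L ⧸ Q) := by
    refine finite_of_bounded j (Module.finrank K L) fun x => ?_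
    obtain ⟨b, rfl⟩ := Ideal.Quotient.mk_surjective x
    have hb : IsIntegral P (b : L) := b.2
    refine ⟨(minpoly P (b : L)).map ev, (minpoly.monic hb).map ev, ?_, ?_⟩
    · rw [(minpoly.monic hb).natDegree_map]
      have h1 : minpoly K (b : L) = (minpoly P (b : L)).map (algebraMap P K) :=
        minpoly.isIntegrallyClosed_eq_field_fractions' K hb
      have h2 := minpoly.natDegree_le (A := K) (b : L)
      rw [h1, (minpoly.monic hb).natDegree_map] at h2
      exact h2
    · rw [Polynomial.map_map, hj, hφ, ← Polynomial.map_map, Polynomial.eval_map,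
        Polynomial.eval₂_at_apply]
      have h3 : (Polynomial.map (algebraMap P (integralClosure P L))
          (minpoly P (b : L))).eval b = 0 := by
        rw [Polynomial.eval_map]
        apply Subtype.ext
        have h4 := minpoly.aeval P (b : L)
        rw [Polynomial.aeval_def] at h4
        have h5 := Polynomial.hom_eval₂ (minpoly P (b : L))
          (algebraMap P (integralClosure P L)) (algebraMap (integralClosure P L) L) b
        rw [← IsScalarTower.algebraMap_eq] at h5
        exact h5.trans h4
      rw [h3, map_zero]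
  -- not surjective on the residue field
  have hns : ¬ Function.Surjective (fun x : integralClosure P L ⧸ Q => x ^ p - x) := by
    intro hs
    have hi := Finite.injective_iff_surjective.2 hs
    have h01 : (0 : integralClosure P L ⧸ Q) = 1 := hi (by simp [hp])
    exact zero_ne_one h01
  unfold Function.Surjective at hns
  push Not at hns
  obtain ⟨a', ha'⟩ := hns
  obtain ⟨a, rfl⟩ := Ideal.Quotient.mk_surjective a'
  refine ⟨(a : L), fun b hb => ?_⟩
  have hbi : IsIntegral (integralClosure P L) b := by
    refine ⟨X ^ p - X - C a, ?_, ?_⟩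
    · have h1 : (X ^ p - X - C a : (integralClosure P L)[X]) = X ^ p - (X + C a) := by ring
      rw [h1]
      apply monic_X_pow_sub
      rw [degree_X_add_C]
      exact_mod_cast (Fact.out : p.Prime).one_lt
    · rw [eval₂_sub, eval₂_sub, eval₂_pow, eval₂_X, eval₂_C]
      show b ^ p - b - (a : L) = 0
      rw [hb, sub_self]
  have hbP : IsIntegral P b := isIntegral_trans b hbi
  refine ha' (Ideal.Quotient.mk Q ⟨b, hbP⟩) ?_
  rw [← map_pow, ← map_sub]
  congr 1
  exact Subtype.ext hb

theorem as : T_as := by
  intro p _ L _ _ hFG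
  obtain ⟨s, hs⟩ := exists_isTranscendenceBasis (ZMod p) L
  have e := hs.1.aevalEquiv
  have hic : IsIntegrallyClosed (Algebra.adjoin (ZMod p) (Set.range ((↑) : s → L))) :=
    IsIntegrallyClosed.of_equiv e.toRingEquiv
  have halg : Algebra.IsAlgebraic (Algebra.adjoin (ZMod p) (Set.range ((↑) : s → L))) L :=
    hs.isAlgebraic
  let _ : Algebra (FractionRing (Algebra.adjoin (ZMod p) (Set.range ((↑) : s → L)))) L :=
    FractionRing.liftAlgebra _ L
  have htow : IsScalarTower (Algebra.adjoin (ZMod p) (Set.range ((↑) : s → L)))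
    (FractionRing (Algebra.adjoin (ZMod p) (Set.range ((↑) : s → L)))) L :=
    FractionRing.isScalarTower_liftAlgebra _ L
  have halg2 : Algebra.IsAlgebraic
      (FractionRing (Algebra.adjoin (ZMod p) (Set.range ((↑) : s → L)))) L :=
    (IsFractionRing.comap_isAlgebraic_iff (A := Algebra.adjoin (ZMod p)
      (Set.range ((↑) : s → L)))).1 halg
  have htow2 : IsScalarTower (ZMod p)
      (FractionRing (Algebra.adjoin (ZMod p) (Set.range ((↑) : s → L)))) L :=
    IsScalarTower.of_algebraMap_eq' (Subsingleton.elim _ _)
  have hess : Algebra.EssFiniteType (ZMod p) L := IntermediateField.fg_top_iff.1 hFG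
  have hess2 : Algebra.EssFiniteType
      (FractionRing (Algebra.adjoin (ZMod p) (Set.range ((↑) : s → L)))) L :=
    Algebra.EssFiniteType.of_comp (ZMod p) _ L
  obtain ⟨t, ht⟩ := IntermediateField.fg_top_iff.2 hess2
  have hfd : FiniteDimensional
      (FractionRing (Algebra.adjoin (ZMod p) (Set.range ((↑) : s → L)))) L := by
    have h1 : FiniteDimensional (FractionRing (Algebra.adjoin (ZMod p)
        (Set.range ((↑) : s → L)))) (IntermediateField.adjoin (FractionRing
          (Algebra.adjoin (ZMod p) (Set.range ((↑) : s → L)))) (t : Set L)) :=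
      IntermediateField.finiteDimensional_adjoin fun x _ =>
        (Algebra.IsAlgebraic.isAlgebraic x).isIntegral
    rw [ht] at h1
    exact Module.Finite.equiv (IntermediateField.topEquiv (F := FractionRing
      (Algebra.adjoin (ZMod p) (Set.range ((↑) : s → L)))) (E := L)).toLinearEquiv
  refine as_core (K := FractionRing (Algebra.adjoin (ZMod p) (Set.range ((↑) : s → L))))
    (((MvPolynomial.constantCoeff : MvPolynomial s (ZMod p) →+* ZMod p)).comp
      e.symm.toRingEquiv.toRingHom) ?_
  intro x
  refine ⟨e (MvPolynomial.C x), ?_⟩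
  simp

end Pool.Agent.TH954.G
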