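import Pool.Agent.TH954.G.Def

/-!
# Finitely generated fields of characteristic `p` have Artin-Schreier extensions
-/

set_option autoImplicit false

namespace Pool.Agent.TH954.G

open MvPolynomial

namespace AsB

open scoped IntermediateField.algebraAdjoinAdjoin in
theorem indep (F L : Type) [Field F] [Field L] [Algebra F L] {ι κ : Type} (t : ι → L)
    (ht : AlgebraicIndependent F t) (k : IntermediateField F L) [Algebra.IsAlgebraic F k]
    (b : κ → k) (hb : LinearIndependent F b) :
    LinearIndependent (IntermediateField.adjoin F (Set.range t)) (fun i => (b i : L)) := by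
  classical
  have htk : AlgebraicIndependent k t := ht.extendScalars k
  rw [← LinearIndependent.iff_fractionRing (R := Algebra.adjoin F (Set.range t))]
  rw [linearIndependent_iff']
  intro s g hg
  -- lift the coefficients to polynomials
  have hlift : ∀ i, ∃ c : MvPolynomial ι F, aeval t c = (g i : L) := by
    intro i
    have h1 : ∀ z ∈ Algebra.adjoin F (Set.range t), ∃ c : MvPolynomial ι F, aeval t c = z := by
      intro z hz
      rw [Algebra.adjoin_range_eq_range_aeval] at hz
      exact hz
    exact h1 _ (g i).2
  choose c hc using hlift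
  let P : MvPolynomial ι k := ∑ i ∈ s, C (b i) * map (algebraMap F k) (c i)
  have hP : aeval t P = 0 := by
    simp only [P, map_sum, map_mul, aeval_C, aeval_map_algebraMap, hc]
    rw [← hg]
    refine Finset.sum_congr rfl fun i _ => ?_
    rw [Algebra.smul_def, mul_comm]
    rfl
  have hP0 : P = 0 := by
    apply (algebraicIndependent_iff_injective_aeval.mp htk)
    rw [hP, map_zero]
  intro i hi
  have hci : c i = 0 := by
    ext m
    have h1 : ∑ i ∈ s, coeff m (c i) • b i = 0 := by
      have h2 := congrArg (coeff m) hP0
      simp only [P, coeff_sum, coeff_C_mul, coeff_map, coeff_zero] at h2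
      rw [← h2]
      refine Finset.sum_congr rfl fun i _ => ?_
      rw [Algebra.smul_def, mul_comm]
    have := (linearIndependent_iff'.mp hb) s (fun i => coeff m (c i)) h1 i hi
    simpa using this
  apply Subtype.ext
  rw [← hc i, hci, map_zero]
  rfl

end AsB

theorem as : T_as := by
  intro p _ L _ _ hfg
  have hess : Algebra.EssFiniteType (ZMod p) L := IntermediateField.fg_top_iff.mp hfg
  obtain ⟨ι, t, ht⟩ := exists_isTranscendenceBasis' (ZMod p) L
  have halg := ht.isAlgebraic_field
  have hess2 : Algebra.EssFiniteType (IntermediateField.adjoin (ZMod p) (Set.range t)) L :=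
    Algebra.EssFiniteType.of_comp (ZMod p) _ L
  have hfin : Module.Finite (IntermediateField.adjoin (ZMod p) (Set.range t)) L :=
    Algebra.finite_of_essFiniteType_of_isAlgebraic
  let k := algebraicClosure (ZMod p) L
  have hkalg : Algebra.IsAlgebraic (ZMod p) k := inferInstance
  let b := Module.Basis.ofVectorSpace (ZMod p) k
  have hli := AsB.indep (ZMod p) L t ht.1 k b b.linearIndependent
  have hfi := hli.finite
  have hkf : Module.Finite (ZMod p) k := Module.Finite.of_basis b
  have hk : Finite k := Module.finite_of_finite (ZMod p)
  have hninj : ¬ Function.Injective (fun x : k => x ^ p - x) := by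
    intro h
    have h01 : (0 : k) = 1 := h (by
      have hp : p ≠ 0 := (Fact.out : p.Prime).ne_zero
      simp [hp])
    exact zero_ne_one h01
  have hnsurj : ¬ Function.Surjective (fun x : k => x ^ p - x) := by
    intro h
    exact hninj (Finite.injective_iff_surjective.mpr h)
  simp only [Function.Surjective, not_forall, not_exists] at hnsurj
  obtain ⟨a, ha⟩ := hnsurj
  refine ⟨(a : L), fun x hx => ?_⟩
  have hint : IsIntegral k x := by
    refine ⟨Polynomial.X ^ p - (Polynomial.X + Polynomial.C a), ?_, ?_⟩
    · apply Polynomial.monic_X_pow_sub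
      rw [Polynomial.degree_X_add_C]
      exact_mod_cast (Fact.out : p.Prime).one_lt
    · simp only [Polynomial.eval₂_sub, Polynomial.eval₂_add, Polynomial.eval₂_pow,
        Polynomial.eval₂_X, Polynomial.eval₂_C]
      have h1 : algebraMap k L a = a := rfl
      rw [h1, ← hx]
      ring
  have hxk : x ∈ k := by
    have : IsIntegral (ZMod p) x := isIntegral_trans x hint
    exact this
  exact ha ⟨x, hxk⟩ (Subtype.ext hx)

end Pool.Agent.TH954.G
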