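import Pool.Agent.TH954.G.Def

/-!
# Finitely generated fields of characteristic `p` have Artin-Schreier extensions
-/

set_option autoImplicit false

open scoped IntermediateField.algebraAdjoinAdjoin

namespace Pool.Agent.TH954.G

lemma lin_pow {k L ι : Type} [Field k] [Field L] [Algebra k L] {t : ι → L}
    (ht : AlgebraicIndependent k t) (α : L) (hα : IsIntegral k α) :
    LinearIndependent (Algebra.adjoin k (Set.range t))
      (fun i : Fin (minpoly k α).natDegree => α ^ (i : ℕ)) := by
  classical
  rw [Fintype.linearIndependent_iff]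
  intro c hc
  have hP : ∀ i, ∃ P : MvPolynomial ι k, MvPolynomial.aeval t P = (c i : L) := by
    intro i
    exact (SetLike.ext_iff.1 (Algebra.adjoin_range_eq_range_aeval k t) _).1 (c i).2
  choose P hP using hP
  let k' := IntermediateField.adjoin k {α}
  have halg : Algebra.IsAlgebraic k k' := by
    have : FiniteDimensional k k' := IntermediateField.adjoin.finiteDimensional hα
    exact Algebra.IsAlgebraic.of_finite k k'
  have ht' : AlgebraicIndependent k' t := ht.extendScalars k'
  have hα' : α ∈ k' := IntermediateField.mem_adjoin_simple_self k α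
  set Q : MvPolynomial ι k' := ∑ i : Fin (minpoly k α).natDegree, MvPolynomial.C ((⟨α, hα'⟩ : k') ^ (i : ℕ)) *
    MvPolynomial.map (algebraMap k k') (P i) with hQ
  have hQ0 : MvPolynomial.aeval t Q = 0 := by
    rw [hQ, map_sum]
    rw [← hc]
    refine Finset.sum_congr rfl (fun i _ => ?_)
    rw [map_mul, MvPolynomial.aeval_C, MvPolynomial.aeval_map_algebraMap, hP]
    rw [Algebra.smul_def, mul_comm]
    rfl
  have hQ1 : Q = 0 := by
    have h1 := (algebraicIndependent_iff_injective_aeval.1 ht')
    apply h1
    rw [hQ0, map_zero]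
  intro i
  have hPi : ∀ n, MvPolynomial.coeff n (P i) = 0 := by
    intro n
    have h1 := congrArg (MvPolynomial.coeff n) hQ1
    rw [hQ, MvPolynomial.coeff_sum, MvPolynomial.coeff_zero] at h1
    simp only [MvPolynomial.coeff_C_mul, MvPolynomial.coeff_map] at h1
    have h2 := congrArg (algebraMap k' L) h1
    rw [map_sum, map_zero] at h2
    have h3 := Fintype.linearIndependent_iff.1 (linearIndependent_pow (K := k) α)
      (fun i => MvPolynomial.coeff n (P i)) (by
        rw [← h2]
        refine Finset.sum_congr rfl (fun i _ => ?_)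
        rw [Algebra.smul_def, map_mul, map_pow, mul_comm]
        rfl)
    exact h3 i
  apply Subtype.ext
  rw [← hP i]
  have : P i = 0 := MvPolynomial.ext _ _ (fun n => by rw [hPi n, MvPolynomial.coeff_zero])
  rw [this, map_zero]
  rfl

theorem asF : T_as := by
  intro p _ L _ _ hfg
  classical
  have hp : p.Prime := Fact.out
  have hess : Algebra.EssFiniteType (ZMod p) L := IntermediateField.fg_top_iff.1 hfg
  obtain ⟨ι, t, ht⟩ := exists_isTranscendenceBasis' (ZMod p) L
  let T := IntermediateField.adjoin (ZMod p) (Set.range t)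
  have h1 : Algebra.EssFiniteType T L := Algebra.EssFiniteType.of_comp (ZMod p) T L
  have h2 : Algebra.IsAlgebraic T L := ht.isAlgebraic_field
  have h3 : Module.Finite T L := Algebra.finite_of_essFiniteType_of_isAlgebraic
  set d := Module.finrank T L with hd
  -- degrees are bounded
  have hdeg : ∀ α : L, IsIntegral (ZMod p) α → (minpoly (ZMod p) α).natDegree ≤ d := by
    intro α hα
    have h4 := lin_pow ht.1 α hα
    have h5 : LinearIndependent T (fun i : Fin (minpoly (ZMod p) α).natDegree => α ^ (i : ℕ)) := by
      exact (LinearIndependent.iff_fractionRing (Algebra.adjoin (ZMod p) (Set.range t)) T).1 h4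
    have h6 := h5.fintype_card_le_finrank
    rwa [Fintype.card_fin] at h6
  -- all algebraic elements are roots of one polynomial
  set N := d.factorial with hN
  have hroot : ∀ α : L, IsIntegral (ZMod p) α → α ^ (p ^ N) = α := by
    intro α hα
    have h4 : FiniteDimensional (ZMod p) (IntermediateField.adjoin (ZMod p) {α}) :=
      IntermediateField.adjoin.finiteDimensional hα
    have h5 : Finite (IntermediateField.adjoin (ZMod p) {α}) := Module.finite_of_finite (ZMod p)
    have : Fintype (IntermediateField.adjoin (ZMod p) {α}) := Fintype.ofFinite _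
    have h6 : Fintype.card (IntermediateField.adjoin (ZMod p) {α}) =
        p ^ (minpoly (ZMod p) α).natDegree := by
      rw [Module.card_eq_pow_finrank (K := ZMod p), ZMod.card,
        IntermediateField.adjoin.finrank hα]
    obtain ⟨c, hc⟩ : (minpoly (ZMod p) α).natDegree ∣ N :=
      Nat.dvd_factorial (minpoly.natDegree_pos hα) (hdeg α hα)
    have h7 := FiniteField.pow_card_pow c
      (⟨α, IntermediateField.mem_adjoin_simple_self (ZMod p) α⟩ :
        IntermediateField.adjoin (ZMod p) {α})
    rw [h6, ← pow_mul, ← hc] at h7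
    exact congrArg (fun z : IntermediateField.adjoin (ZMod p) {α} => (z : L)) h7
  have hcL : CharP L p := charP_of_injective_algebraMap (algebraMap (ZMod p) L).injective p
  by_contra hcon
  push Not at hcon
  -- the set of algebraic elements
  have hfin : {α : L | α ^ (p ^ N) = α}.Finite := by
    have h0 : (Polynomial.X ^ (p ^ N) - Polynomial.X : Polynomial L) ≠ 0 := by
      apply FiniteField.X_pow_card_pow_sub_X_ne_zero
      · exact (Nat.factorial_pos d).ne'
      · exact hp.one_lt
    refine ((Polynomial.X ^ (p ^ N) - Polynomial.X : Polynomial L).roots.toFinset.finite_toSet).subset ?_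
    intro α hα
    rw [Finset.mem_coe, Multiset.mem_toFinset, Polynomial.mem_roots h0, Polynomial.IsRoot.def]
    simp only [Polynomial.eval_sub, Polynomial.eval_pow, Polynomial.eval_X]
    exact sub_eq_zero.2 hα
  have hmaps : Set.MapsTo (fun b : L => b ^ p - b) {b : L | IsIntegral (ZMod p) b}
      {b : L | IsIntegral (ZMod p) b} := fun b hb => (hb.pow p).sub hb
  have hfin2 : {b : L | IsIntegral (ZMod p) b}.Finite := hfin.subset (fun b hb => hroot b hb)
  have hsurj : Set.SurjOn (fun b : L => b ^ p - b) {b : L | IsIntegral (ZMod p) b}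
      {b : L | IsIntegral (ZMod p) b} := by
    intro a ha
    obtain ⟨b, hb⟩ := hcon a
    refine ⟨b, ?_, hb⟩
    have ha' : IsIntegral (ZMod p) a := ha
    have h8 : IsIntegral (integralClosure (ZMod p) L) b := by
      refine ⟨(Polynomial.X ^ p - (Polynomial.X + Polynomial.C ⟨a, ha'⟩) :
        Polynomial (integralClosure (ZMod p) L)), Polynomial.monic_X_pow_sub ?_, ?_⟩
      · rw [Polynomial.degree_X_add_C (R := integralClosure (ZMod p) L)]
        exact_mod_cast hp.one_lt
      · simp only [Polynomial.eval₂_sub, Polynomial.eval₂_add, Polynomial.eval₂_pow,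
          Polynomial.eval₂_X, Polynomial.eval₂_C]
        change b ^ p - (b + a) = 0
        rw [← hb]
        ring
    exact isIntegral_trans b h8
  have hfs : Finite {b : L | IsIntegral (ZMod p) b} := hfin2.to_subtype
  let f : {b : L | IsIntegral (ZMod p) b} → {b : L | IsIntegral (ZMod p) b} :=
    fun b => ⟨(b : L) ^ p - b, hmaps b.2⟩
  have hfsurj : Function.Surjective f := by
    rintro ⟨a, ha⟩
    obtain ⟨b, hb, hab⟩ := hsurj ha
    exact ⟨⟨b, hb⟩, Subtype.ext hab⟩
  have hinj : Function.Injective f := Finite.injective_iff_surjective.2 hfsurj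
  have h9 : (⟨0, isIntegral_zero⟩ : {b : L | IsIntegral (ZMod p) b}) = ⟨1, isIntegral_one⟩ := by
    apply hinj
    apply Subtype.ext
    change (0 : L) ^ p - 0 = 1 ^ p - 1
    rw [zero_pow hp.ne_zero, one_pow, sub_zero, sub_self]
  exact zero_ne_one (congrArg (fun z : {b : L | IsIntegral (ZMod p) b} => (z : L)) h9)

end Pool.Agent.TH954.G
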