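import Pool.Agent.TH954.G.Core

/-!
# Artin-Schreier extensions of finite extensions
-/

set_option autoImplicit false

namespace Pool.Agent.TH954.G

theorem asc (has : T_as) {p : ℕ} [Fact p.Prime] {K Ks : Type} [Field K] [Algebra (ZMod p) K]
    (hK : (⊤ : IntermediateField (ZMod p) K).FG) [Field Ks] [Algebra K Ks]
    (E : IntermediateField K Ks) (hE : FiniteDimensional K E) : ∃ a : E, ∀ b : E, b ^ p - b ≠ a := by
  let _ : Algebra (ZMod p) E := ((algebraMap K E).comp (algebraMap (ZMod p) K)).toAlgebra
  have : IsScalarTower (ZMod p) K E := IsScalarTower.of_algebraMap_eq (fun _ => rfl)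
  obtain ⟨T, hT⟩ := hK
  apply has p E
  obtain ⟨U, hU⟩ : (⊤ : IntermediateField K E).FG := IntermediateField.fg_of_noetherian _
  classical
  refine ⟨T.image (algebraMap K E) ∪ U, ?_⟩
  rw [eq_top_iff]
  intro z _
  set L : IntermediateField (ZMod p) E :=
    IntermediateField.adjoin (ZMod p) ((T.image (algebraMap K E) ∪ U : Finset E) : Set E) with hL
  have hKL : ∀ c : K, algebraMap K E c ∈ L := by
    intro c
    have h1 : c ∈ IntermediateField.adjoin (ZMod p) (T : Set K) := by
      rw [hT]
      exact IntermediateField.mem_top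
    have h2 : IntermediateField.adjoin (ZMod p) (T : Set K) ≤
        L.comap (IsScalarTower.toAlgHom (ZMod p) K E) := by
      rw [IntermediateField.adjoin_le_iff]
      intro t ht
      change algebraMap K E t ∈ L
      apply IntermediateField.subset_adjoin
      rw [Finset.mem_coe, Finset.mem_union]
      exact Or.inl (Finset.mem_image_of_mem _ ht)
    exact h2 h1
  have h1 : z ∈ IntermediateField.adjoin K (U : Set E) := by
    rw [hU]
    exact IntermediateField.mem_top
  let L' : IntermediateField K E := { L.toSubfield with algebraMap_mem' := hKL }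
  have h2 : IntermediateField.adjoin K (U : Set E) ≤ L' := by
    rw [IntermediateField.adjoin_le_iff]
    intro t ht
    change t ∈ L
    apply IntermediateField.subset_adjoin
    rw [Finset.mem_coe, Finset.mem_union]
    exact Or.inr ht
  exact h2 h1

theorem main0 (has : T_as) (hinert : T_inert) (p : ℕ) [Fact p.Prime] (K A F Ω M Ks : Type)
    [Field K] [Algebra (ZMod p) K] (hK : (⊤ : IntermediateField (ZMod p) K).FG)
    [CommRing A] [IsDomain A] [IsIntegrallyClosed A] [Algebra K A]
    [Field F] [Algebra A F] [IsFractionRing A F]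
    [Field Ω] [Algebra F Ω] [Algebra A Ω] [IsScalarTower A F Ω] [IsSepClosure F Ω]
    [Field M] [Algebra F M] [Algebra A M] [Algebra K M] [IsScalarTower A F M] [IsScalarTower K A M]
    (e : M →ₐ[F] Ω) (he : e.fieldRange = unr A F Ω)
    [Field Ks] [Algebra K Ks] [IsSepClosure K Ks] (x : A →ₐ[K] K) (S : PointSection K A F M Ks x)
    (γ : M ≃ₐ[F] M) (hγ : ∀ z, γ (S.j z) = S.j z) (hc : ∀ σ, γ * S.s σ = S.s σ * γ) : γ = 1 := by
  have hcK : CharP K p := charP_of_injective_algebraMap (algebraMap (ZMod p) K).injective p
  have hcM : CharP M p := charP_of_injective_algebraMap (algebraMap K M).injective p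
  have hcF : CharP F p := (RingHom.charP_iff (algebraMap F M) (algebraMap F M).injective p).2 hcM
  have hsc : IsSepClosed Ω := IsSepClosure.sep_closed F
  exact core S (fun E hE => asc has hK E hE) (fun f hf => root p A F Ω M e he f hf)
    (hinert A F Ω M e he) γ hγ hc

end Pool.Agent.TH954.G
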