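import Pool.Agent.TH954.G.Def

/-!
# Elements of fundamental groups fixed by a section defined by a point
-/

set_option autoImplicit false

namespace Pool.Agent.TH954.G

/-- The section `s` of the map from `Gal(M/F)` to the absolute Galois group of `K` defined by the
`K`-rational point `x` of `A`: the point `ρ` of the integral closure of `A` in `M` with values in the
separable closure `Ks` of `K` lies over `x`, it is the identity on `Ks` (embedded in `M` by `j`),
and `s σ` is compatible with the action of `σ` on the values. -/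
structure PointSection (K A F M Ks : Type) [Field K] [CommRing A] [Field F] [Field M] [Field Ks]
    [Algebra K A] [Algebra F M] [Algebra K M] [Algebra A M] [Algebra K Ks]
    (x : A →ₐ[K] K) where
  j : Ks →ₐ[K] M
  ρ : integralClosure A M →+* Ks
  s : (Ks ≃ₐ[K] Ks) →* (M ≃ₐ[F] M)
  ρ_alg : ∀ a : A, ρ (algebraMap A (integralClosure A M) a) = algebraMap K Ks (x a)
  ρ_j : ∀ (z : Ks) (h : j z ∈ integralClosure A M), ρ ⟨j z, h⟩ = z
  s_j : ∀ (σ : Ks ≃ₐ[K] Ks) (z : Ks), s σ (j z) = j (σ z)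
  ρ_s : ∀ (σ : Ks ≃ₐ[K] Ks) (b : integralClosure A M) (h : s σ (b : M) ∈ integralClosure A M),
    ρ ⟨s σ (b : M), h⟩ = σ (ρ b)
  cont : ∀ y : M, ∃ E : IntermediateField K Ks, FiniteDimensional K E ∧
    ∀ σ : Ks ≃ₐ[K] Ks, (∀ z ∈ E, σ z = z) → s σ y = y

section core

variable {p : ℕ} [Fact p.Prime] {K A F M Ks : Type} [Field K] [CharP K p] [CommRing A] [Field F]
  [Field M] [Field Ks] [Algebra K A] [Algebra A F] [Algebra F M] [Algebra K M] [Algebra A M]
  [IsScalarTower K A M] [IsScalarTower A F M] [Algebra K Ks] [IsSepClosure K Ks] {x : A →ₐ[K] K}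

lemma int_map (γ : M ≃ₐ[F] M) {b : M} (hb : b ∈ integralClosure A M) :
    γ b ∈ integralClosure A M :=
  IsIntegral.map (γ.restrictScalars A) hb

lemma as_int {b g : M} (hg : g ∈ integralClosure A M) (h : b ^ p - b = g) :
    b ∈ integralClosure A M := by
  have hp : 1 < p := (Fact.out : p.Prime).one_lt
  have h1 : IsIntegral (integralClosure A M) b := by
    refine ⟨(Polynomial.X ^ p - (Polynomial.X + Polynomial.C ⟨g, hg⟩) :
      Polynomial (integralClosure A M)), Polynomial.monic_X_pow_sub ?_, ?_⟩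
    · rw [Polynomial.degree_X_add_C (R := integralClosure A M)]
      exact_mod_cast hp
    · simp only [Polynomial.eval₂_sub, Polynomial.eval₂_add, Polynomial.eval₂_pow,
        Polynomial.eval₂_X, Polynomial.eval₂_C]
      change b ^ p - (b + g) = 0
      rw [← h]
      ring
  exact isIntegral_trans b h1

theorem core (S : PointSection K A F M Ks x)
    (hAS : ∀ E : IntermediateField K Ks, FiniteDimensional K E → ∃ a : E, ∀ b : E, b ^ p - b ≠ a)
    (hroot : ∀ f : M, IsIntegral A f → ∃ y : M, y ^ p - y = f)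
    (hin : ∀ P : Ideal (integralClosure A M), P.IsMaximal → ∀ γ : M ≃ₐ[F] M,
      (∀ b : integralClosure A M, ∃ q ∈ P, γ (b : M) - b = q) → γ = 1)
    (γ : M ≃ₐ[F] M) (hγ : ∀ z, γ (S.j z) = S.j z) (hc : ∀ σ, γ * S.s σ = S.s σ * γ) : γ = 1 := by
  have hp : p.Prime := Fact.out
  have hcM : CharP M p := charP_of_injective_algebraMap (algebraMap K M).injective p
  have hgal : IsGalois K Ks := IsSepClosure.isGalois
  have hjint : ∀ z : Ks, S.j z ∈ integralClosure A M := fun z => by
    have h1 : IsIntegral K z := (Algebra.IsSeparable.isSeparable K z).isIntegral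
    exact (h1.map S.j).tower_top
  have hinv : ∀ σ y, S.s σ (γ⁻¹ y) = γ⁻¹ (S.s σ y) := by
    intro σ y
    apply γ.injective
    have h1 := congrArg (fun δ : M ≃ₐ[F] M => δ (γ⁻¹ y)) (hc σ)
    change γ (S.s σ (γ⁻¹ y)) = S.s σ (γ (γ⁻¹ y)) at h1
    have h2 : ∀ t, γ (γ⁻¹ t) = t := fun t => γ.apply_symm_apply t
    rw [h2] at h1
    rw [h1, h2]
  have hγ' : ∀ z, γ⁻¹ (S.j z) = S.j z := fun z => by
    apply γ.injective
    have h2 : ∀ t, γ (γ⁻¹ t) = t := fun t => γ.apply_symm_apply t
    rw [h2, hγ]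
  have hfix : ∀ (E : IntermediateField K Ks) (t : Ks),
      (∀ σ : Ks ≃ₐ[K] Ks, (∀ z ∈ E, σ z = z) → σ t = t) → t ∈ E := by
    intro E t ht
    rw [← InfiniteGalois.fixedField_fixingSubgroup E, IntermediateField.mem_fixedField_iff]
    intro σ hσ
    exact ht σ (fun z hz => (IntermediateField.mem_fixingSubgroup_iff _ _).1 hσ z hz)
  -- the values of `f` at the two points agree
  have key : ∀ f : integralClosure A M,
      S.ρ ⟨γ⁻¹ (f : M), int_map γ⁻¹ f.2⟩ = S.ρ f := by
    intro f
    by_contra hne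
    obtain ⟨E, hE, hEf⟩ := S.cont f
    set a := S.ρ f with ha
    set a' := S.ρ ⟨γ⁻¹ (f : M), int_map γ⁻¹ f.2⟩ with ha'
    have haE : a ∈ E := by
      apply hfix
      intro σ hσ
      rw [ha, ← S.ρ_s σ f (int_map _ f.2)]
      congr 1
      exact Subtype.ext (hEf σ hσ)
    have haE' : a' ∈ E := by
      apply hfix
      intro σ hσ
      rw [ha', ← S.ρ_s σ _ (int_map _ (int_map _ f.2))]
      congr 1
      apply Subtype.ext
      change S.s σ (γ⁻¹ (f : M)) = γ⁻¹ (f : M)
      rw [hinv, hEf σ hσ]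
    obtain ⟨c, hcE⟩ := hAS E hE
    have hsub : a' - a ≠ 0 := sub_ne_zero.2 hne
    set u : Ks := (c : Ks) / (a' - a) with hu
    have huE : u ∈ E := div_mem c.2 (sub_mem haE' haE)
    set g : M := S.j u * ((f : M) - S.j a) with hg
    have hgint : g ∈ integralClosure A M := mul_mem (hjint u) (sub_mem f.2 (hjint a))
    obtain ⟨y0, hy0⟩ := hroot g hgint
    have hy0int : y0 ∈ integralClosure A M := as_int hgint hy0
    have hρg : S.ρ ⟨g, hgint⟩ = 0 := by
      have e1 : (⟨g, hgint⟩ : integralClosure A M) = ⟨S.j u, hjint u⟩ * (f - ⟨S.j a, hjint a⟩) :=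
        Subtype.ext rfl
      rw [e1, map_mul, map_sub, S.ρ_j, S.ρ_j, ← ha, sub_self, mul_zero]
    set t := S.ρ ⟨y0, hy0int⟩ with ht
    have htp : t ^ p - t = 0 := by
      have e1 : (⟨y0, hy0int⟩ : integralClosure A M) ^ p - ⟨y0, hy0int⟩ = ⟨g, hgint⟩ :=
        Subtype.ext hy0
      have e2 := congrArg S.ρ e1
      rwa [map_sub, map_pow, hρg] at e2
    set y : M := y0 - S.j t with hy
    have hyint : y ∈ integralClosure A M := sub_mem hy0int (hjint t)
    have hyg : y ^ p - y = g := by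
      rw [hy, sub_pow_char]
      have e1 : S.j t ^ p - S.j t = 0 := by rw [← map_pow, ← map_sub, htp, map_zero]
      linear_combination hy0 - e1
    have hρy : S.ρ ⟨y, hyint⟩ = 0 := by
      have e1 : (⟨y, hyint⟩ : integralClosure A M) = ⟨y0, hy0int⟩ - ⟨S.j t, hjint t⟩ :=
        Subtype.ext rfl
      rw [e1, map_sub, S.ρ_j, ← ht, sub_self]
    have hsg : ∀ σ : Ks ≃ₐ[K] Ks, (∀ z ∈ E, σ z = z) → S.s σ g = g := by
      intro σ hσ
      rw [hg, map_mul, map_sub, S.s_j, S.s_j, hσ u huE, hσ a haE, hEf σ hσ]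
    have hsy : ∀ σ : Ks ≃ₐ[K] Ks, (∀ z ∈ E, σ z = z) → S.s σ y = y := by
      intro σ hσ
      by_contra hcon
      have h0 : S.s σ y - y ≠ 0 := sub_ne_zero.2 hcon
      have h1 : (S.s σ y - y) ^ p = S.s σ y - y := by
        rw [sub_pow_char]
        have e1 := congrArg (S.s σ) hyg
        rw [map_sub, map_pow, hsg σ hσ] at e1
        linear_combination e1 - hyg
      have h2 : (S.s σ y - y) ^ (p - 1) = 1 := by
        have h3 : (S.s σ y - y) ^ (p - 1) * (S.s σ y - y) = 1 * (S.s σ y - y) := by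
          rw [← pow_succ, Nat.sub_add_cancel hp.one_le, one_mul]
          exact h1
        exact mul_right_cancel₀ h0 h3
      have h3 : (⟨S.s σ y, int_map _ hyint⟩ - ⟨y, hyint⟩ : integralClosure A M) ^ (p - 1) = 1 :=
        Subtype.ext h2
      have h4 := congrArg S.ρ h3
      rw [map_pow, map_sub, S.ρ_s σ ⟨y, hyint⟩ (int_map _ hyint), hρy, map_zero, sub_zero,
        map_one, zero_pow (by have := hp.one_lt; omega)] at h4
      exact zero_ne_one h4
    set b := S.ρ ⟨γ⁻¹ y, int_map γ⁻¹ hyint⟩ with hb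
    have hbE : b ∈ E := by
      apply hfix
      intro σ hσ
      rw [hb, ← S.ρ_s σ _ (int_map _ (int_map _ hyint))]
      congr 1
      apply Subtype.ext
      change S.s σ (γ⁻¹ y) = γ⁻¹ y
      rw [hinv, hsy σ hσ]
    apply hcE ⟨b, hbE⟩
    apply Subtype.ext
    change b ^ p - b = c
    have e1 : (⟨γ⁻¹ y, int_map γ⁻¹ hyint⟩ : integralClosure A M) ^ p -
        ⟨γ⁻¹ y, int_map γ⁻¹ hyint⟩ =
        ⟨S.j u, hjint u⟩ * (⟨γ⁻¹ (f : M), int_map γ⁻¹ f.2⟩ - ⟨S.j a, hjint a⟩) := by
      apply Subtype.ext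
      change (γ⁻¹ y) ^ p - γ⁻¹ y = S.j u * (γ⁻¹ (f : M) - S.j a)
      rw [← map_pow, ← map_sub, hyg, hg, map_mul, map_sub, hγ', hγ']
    have e2 := congrArg S.ρ e1
    have e3 : S.ρ ⟨S.j u, hjint u⟩ = u := S.ρ_j u _
    have e4 : S.ρ ⟨S.j a, hjint a⟩ = a := S.ρ_j a _
    rw [map_sub S.ρ, map_pow S.ρ, map_mul S.ρ, map_sub S.ρ, e3, e4] at e2
    change b ^ p - b = u * (a' - a) at e2
    rw [e2, hu, div_mul_cancel₀ _ hsub]
  -- the kernel of the point
  have hsurj : Function.Surjective S.ρ := fun z => ⟨⟨S.j z, hjint z⟩, S.ρ_j z _⟩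
  have hmax : (RingHom.ker S.ρ).IsMaximal := RingHom.ker_isMaximal_of_surjective _ hsurj
  have h1 := hin (RingHom.ker S.ρ) hmax γ⁻¹ (fun b =>
    ⟨⟨γ⁻¹ (b : M), int_map γ⁻¹ b.2⟩ - b, by
      rw [RingHom.mem_ker, map_sub, key b, sub_self], rfl⟩)
  exact inv_eq_one.1 h1

end core

/-- roots of Artin-Schreier polynomials in the maximal unramified extension -/
theorem root (p : ℕ) [Fact p.Prime] (A F Ω M : Type) [CommRing A]
    [Field F] [CharP F p] [Field Ω] [Field M] [Algebra A F] [Algebra F Ω] [Algebra A Ω]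
    [IsScalarTower A F Ω] [IsSepClosed Ω] [Algebra F M] [Algebra A M] [IsScalarTower A F M]
    (e : M →ₐ[F] Ω) (he : e.fieldRange = unr A F Ω) (f : M) (hf : IsIntegral A f) :
    ∃ y : M, y ^ p - y = f := by
  have hp : p.Prime := Fact.out
  have hcΩ : CharP Ω p := charP_of_injective_algebraMap (algebraMap F Ω).injective p
  obtain ⟨y, hy⟩ : ∃ y : Ω, y ^ p - y = e f := by
    have hsep : (Polynomial.X ^ p - Polynomial.X - Polynomial.C (e f) : Polynomial Ω).Separable := by
      rw [Polynomial.separable_def]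
      have hd : Polynomial.derivative
          (Polynomial.X ^ p - Polynomial.X - Polynomial.C (e f) : Polynomial Ω) = -1 := by
        simp [Polynomial.derivative_X_pow]
      rw [hd]
      exact isCoprime_one_right.neg_right
    have hdeg : (Polynomial.X ^ p - Polynomial.X - Polynomial.C (e f) : Polynomial Ω).degree ≠ 0 := by
      have h1 : (Polynomial.X ^ p - Polynomial.X - Polynomial.C (e f) : Polynomial Ω).degree = p := by
        rw [sub_sub]
        rw [Polynomial.degree_sub_eq_left_of_degree_lt, Polynomial.degree_X_pow]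
        rw [Polynomial.degree_X_pow, Polynomial.degree_X_add_C]
        exact_mod_cast hp.one_lt
      rw [h1]
      exact_mod_cast hp.ne_zero
    obtain ⟨y, hy⟩ := IsSepClosed.exists_root _ hdeg hsep
    refine ⟨y, ?_⟩
    rw [Polynomial.IsRoot.def] at hy
    simp only [Polynomial.eval_sub, Polynomial.eval_pow, Polynomial.eval_X,
      Polynomial.eval_C] at hy
    exact sub_eq_zero.1 hy
  have hef : e f ∈ integralClosure A Ω := IsIntegral.map (e.restrictScalars A) hf
  have hyint : y ∈ integralClosure A Ω := as_int hef hy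
  have hfu : e f ∈ unr A F Ω := by
    rw [← he]
    exact ⟨f, rfl⟩
  have hyu : y ∈ unr A F Ω := by
    intro Q hQ σ hσ
    obtain ⟨q, hq, hqe⟩ := hσ ⟨y, hyint⟩
    change σ y - y = q at hqe
    by_contra hne
    have h0 : σ y - y ≠ 0 := sub_ne_zero.2 hne
    have h1 : (σ y - y) ^ p = σ y - y := by
      rw [sub_pow_char]
      have e1 := congrArg σ hy
      rw [map_sub, map_pow, hfu Q hQ σ hσ] at e1
      linear_combination e1 - hy
    have h2 : (σ y - y) ^ (p - 1) = 1 := by
      have h3 : (σ y - y) ^ (p - 1) * (σ y - y) = 1 * (σ y - y) := by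
        rw [← pow_succ, Nat.sub_add_cancel hp.one_le, one_mul]
        exact h1
      exact mul_right_cancel₀ h0 h3
    apply hQ.ne_top
    rw [Ideal.eq_top_iff_one]
    have h3 : q ^ (p - 1) = 1 := by
      apply Subtype.ext
      change (q : Ω) ^ (p - 1) = 1
      rw [← hqe]
      exact h2
    rw [← h3]
    exact Q.pow_mem_of_mem hq _ (by have := hp.one_lt; omega)
  rw [← he] at hyu
  obtain ⟨y', rfl⟩ := hyu
  refine ⟨y', e.injective ?_⟩
  change e (y' ^ p - y') = e f
  rw [map_sub, map_pow]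
  exact hy

end Pool.Agent.TH954.G
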