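import Mathlib

/-!
# Fundamental groups of affine curves and sections defined by points
-/

set_option autoImplicit false

namespace Pool.Agent.TH954.G

/-- The maximal extension of `F` in `Ω` which is unramified over `A`: the elements fixed by the
inertia groups of all the maximal ideals of the integral closure of `A` in `Ω`. -/
def unr (A F Ω : Type) [CommRing A] [Field F] [Field Ω] [Algebra A F] [Algebra F Ω] [Algebra A Ω]
    [IsScalarTower A F Ω] : IntermediateField F Ω where
  carrier := {z | ∀ Q : Ideal (integralClosure A Ω), Q.IsMaximal → ∀ σ : Ω ≃ₐ[F] Ω,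
    (∀ r : integralClosure A Ω, ∃ q ∈ Q, σ (r : Ω) - r = q) → σ z = z}
  mul_mem' := fun {x y} hx hy Q hQ σ hσ => by rw [map_mul, hx Q hQ σ hσ, hy Q hQ σ hσ]
  one_mem' := fun Q hQ σ hσ => map_one _
  add_mem' := fun {x y} hx hy Q hQ σ hσ => by rw [map_add, hx Q hQ σ hσ, hy Q hQ σ hσ]
  zero_mem' := fun Q hQ σ hσ => map_zero _
  algebraMap_mem' := fun c Q hQ σ hσ => σ.commutes c
  inv_mem' := fun x hx Q hQ σ hσ => by rw [map_inv₀, hx Q hQ σ hσ]

/-- **Target `inert`.** The inertia groups of the maximal unramified extension are trivial. -/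
def T_inert : Prop := ∀ (A F Ω M : Type) [CommRing A] [IsDomain A] [IsIntegrallyClosed A]
  [Field F] [Field Ω] [Field M] [Algebra A F] [IsFractionRing A F] [Algebra F Ω] [Algebra A Ω]
  [IsScalarTower A F Ω] [IsSepClosure F Ω] [Algebra F M] [Algebra A M] [IsScalarTower A F M]
  (e : M →ₐ[F] Ω), e.fieldRange = unr A F Ω →
  ∀ P : Ideal (integralClosure A M), P.IsMaximal → ∀ γ : M ≃ₐ[F] M,
    (∀ b : integralClosure A M, ∃ q ∈ P, γ (b : M) - b = q) → γ = 1

/-- **Target `as`.** Finitely generated fields of characteristic `p` have Artin-Schreier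
extensions. -/
def T_as : Prop := ∀ (p : ℕ) [Fact p.Prime] (L : Type) [Field L] [Algebra (ZMod p) L],
  (⊤ : IntermediateField (ZMod p) L).FG → ∃ a : L, ∀ b : L, b ^ p - b ≠ a

end Pool.Agent.TH954.G
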