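import Pool.Agent.TH954.G.Def

/-!
# The inertia groups of the maximal unramified extension are trivial
-/

set_option autoImplicit false

namespace Pool.Agent.TH954.G

open scoped Pointwise

namespace InertA

theorem core {B R : Type} [CommRing B] [CommRing R] [Algebra B R] {G : Type} [Group G]
    [MulSemiringAction G R] [SMulCommClass G B R] [TopologicalSpace G] [CompactSpace G]
    [TotallyDisconnectedSpace G] [IsTopologicalGroup G] [TopologicalSpace R] [DiscreteTopology R]
    [ContinuousSMul G R] [Algebra.IsInvariant B R G] (P : Ideal B) (hP : P.IsMaximal)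
    (hinj : Function.Injective (algebraMap B R)) (Γ : R ≃+* R) (γ : B ≃+* B)
    (hΓ : ∀ b, Γ (algebraMap B R b) = algebraMap B R (γ b)) (hγ : ∀ b, γ b - b ∈ P) :
    ∃ Q : Ideal R, Q.IsMaximal ∧ ∃ k : G, ∀ r : R, k • Γ r - r ∈ Q := by
  have hint : Algebra.IsIntegral B R := Algebra.IsInvariant.isIntegral_of_profinite (G := G)
  obtain ⟨Q, hQ, hQP⟩ := Ideal.exists_ideal_over_maximal_of_isIntegral (S := R) P
    (by rw [(RingHom.injective_iff_ker_eq_bot _).mp hinj]; exact bot_le)
  have hQprime : Q.IsPrime := hQ.isPrime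
  let Q' : Ideal R := Q.comap (Γ.symm : R →+* R)
  have hQ'prime : Q'.IsPrime := Ideal.IsPrime.comap _
  have hΓs : ∀ b, Γ.symm (algebraMap B R b) = algebraMap B R (γ.symm b) := by
    intro b
    rw [RingEquiv.symm_apply_eq, hΓ, RingEquiv.apply_symm_apply]
  have hγs : ∀ b, γ.symm b ∈ P ↔ b ∈ P := by
    intro b
    have h := hγ (γ.symm b)
    rw [RingEquiv.apply_symm_apply] at h
    constructor
    · intro hb
      have := P.add_mem h hb
      simpa using this
    · intro hb
      have := P.sub_mem hb h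
      simpa using this
  have hunder : Q'.under B = Q.under B := by
    ext b
    rw [Ideal.under_def, Ideal.under_def, hQP, ← hγs b, ← hQP]
    simp only [Q', Ideal.mem_comap, RingHom.coe_coe, hΓs]
  obtain ⟨g, hg⟩ := Algebra.IsInvariant.exists_smul_of_under_eq_of_profinite (G := G) Q' Q hunder
  -- `τ0 = g Γ` preserves `Q`
  have hmem : ∀ r : R, g • Γ r ∈ Q ↔ r ∈ Q := by
    intro r
    rw [hg, Ideal.smul_mem_pointwise_smul_iff]
    simp only [Q', Ideal.mem_comap, RingHom.coe_coe, RingEquiv.symm_apply_apply]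
    rw [← hg]
  have : Q.LiesOver P := ⟨by rw [Ideal.under_def, hQP]⟩
  let T : R ≃+* R := Γ.trans (MulSemiringAction.toRingEquiv G R g)
  have hT : ∀ r, T r = g • Γ r := fun r => rfl
  have hTQ : Q = Q.map (T : R →+* R) := by
    have h1 : Q.comap (T : R →+* R) = Q := by
      ext r
      rw [Ideal.mem_comap, RingHom.coe_coe, hT]
      exact hmem r
    conv_rhs => rw [← h1]
    exact (Ideal.map_comap_of_surjective (T : R →+* R) T.surjective Q).symm
  let S : (R ⧸ Q) ≃+* (R ⧸ Q) := Ideal.quotientEquiv Q Q T hTQ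
  have hS : ∀ r : R, S (Ideal.Quotient.mk Q r) = Ideal.Quotient.mk Q (T r) := fun r => rfl
  have hSc : ∀ x : B ⧸ P, S (algebraMap (B ⧸ P) (R ⧸ Q) x) = algebraMap (B ⧸ P) (R ⧸ Q) x := by
    intro x
    obtain ⟨b, rfl⟩ := Ideal.Quotient.mk_surjective x
    have e1 : algebraMap (B ⧸ P) (R ⧸ Q) (Ideal.Quotient.mk P b) =
        Ideal.Quotient.mk Q (algebraMap B R b) := rfl
    rw [e1, hS, hT, hΓ, smul_algebraMap, Ideal.Quotient.eq, ← map_sub]
    have := hγ b
    rw [← hQP, Ideal.mem_comap] at this
    exact this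
  obtain ⟨h, hh⟩ := Ideal.Quotient.stabilizerHom_surjective_of_profinite (G := G) P Q
    (AlgEquiv.ofRingEquiv (f := S) hSc)
  refine ⟨Q, hQ, (h : G)⁻¹ * g, fun r => ?_⟩
  have h2 : Ideal.Quotient.mk Q ((h : G) • r) = Ideal.Quotient.mk Q (g • Γ r) := by
    have := DFunLike.congr_fun hh (Ideal.Quotient.mk Q r)
    exact this
  rw [Ideal.Quotient.eq] at h2
  have h3 : (h : G)⁻¹ • ((h : G) • r - g • Γ r) ∈ Q := by
    have h4 : (h : G)⁻¹ • Q = Q := by
      rw [inv_smul_eq_iff]
      exact h.2.symm
    have h5 : ∀ (u : G), u • Q = Q → ∀ x ∈ Q, u • x ∈ Q := by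
      intro u hu x hx
      rw [← hu]
      exact Ideal.smul_mem_pointwise_smul _ _ _ hx
    exact h5 _ h4 _ h2
  rw [smul_sub, inv_smul_smul] at h3
  rw [mul_smul]
  have := Q.neg_mem h3
  rwa [neg_sub] at this

end InertA

theorem inert : T_inert := by
  intro A F Ω M _ _ _ _ _ _ _ _ _ _ _ _ _ _ _ e he P hP γ hγ
  let _ : Algebra M Ω := e.toRingHom.toAlgebra
  have hae : ∀ m : M, algebraMap M Ω m = e m := fun _ => rfl
  have : IsScalarTower F M Ω := IsScalarTower.of_algebraMap_eq' e.comp_algebraMap.symm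
  have : IsScalarTower A M Ω := IsScalarTower.of_algebraMap_eq fun a => by
    rw [IsScalarTower.algebraMap_apply A F M, IsScalarTower.algebraMap_apply A F Ω,
      ← IsScalarTower.algebraMap_apply F M Ω]
  have : IsGalois F Ω := IsSepClosure.isGalois
  have : IsGalois M Ω := IsGalois.tower_top_of_isGalois F M Ω
  have : SMulCommClass (Ω ≃ₐ[M] Ω) A Ω := ⟨fun g a z => by
    rw [Algebra.smul_def, Algebra.smul_def, IsScalarTower.algebraMap_apply A M Ω, smul_mul']
    congr 1
    exact g.commutes _⟩
  let i : integralClosure A M →+* integralClosure A Ω :=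
    { toFun := fun b => ⟨e b, b.2.map (e.restrictScalars A)⟩
      map_one' := Subtype.ext (map_one e)
      map_mul' := fun x y => Subtype.ext (map_mul e (x : M) y)
      map_zero' := Subtype.ext (map_zero e)
      map_add' := fun x y => Subtype.ext (map_add e (x : M) y) }
  let _ : Algebra (integralClosure A M) (integralClosure A Ω) := i.toAlgebra
  have hi : ∀ b : integralClosure A M,
      ((algebraMap (integralClosure A M) (integralClosure A Ω) b : integralClosure A Ω) : Ω) =
      e b := fun _ => rfl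
  have hinj : Function.Injective
      (algebraMap (integralClosure A M) (integralClosure A Ω)) := by
    intro x y hxy
    have h9 : e (x : M) = e (y : M) := by rw [← hi, ← hi, hxy]
    exact Subtype.ext (e.injective h9)
  let _ : TopologicalSpace (integralClosure A Ω) := ⊥
  have : DiscreteTopology (integralClosure A Ω) := ⟨rfl⟩
  have : SMulCommClass (Ω ≃ₐ[M] Ω) (integralClosure A M) (integralClosure A Ω) :=
    ⟨fun g b z => by
      apply Subtype.ext
      rw [Algebra.smul_def, Algebra.smul_def, integralClosure.coe_smul]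
      change g (e b * z) = e b * g z
      rw [map_mul]
      congr 1
      exact g.commutes _⟩
  have : ContinuousSMul (Ω ≃ₐ[M] Ω) (integralClosure A Ω) := by
    rw [continuousSMul_iff_stabilizer_isOpen]
    intro x
    have h1 := stabilizer_isOpen_of_isIntegral (K := M) (x : Ω)
    convert! h1 using 1
    ext g
    simp only [SetLike.mem_coe, MulAction.mem_stabilizer_iff]
    exact Subtype.ext_iff
  have : Algebra.IsInvariant (integralClosure A M) (integralClosure A Ω) (Ω ≃ₐ[M] Ω) := by
    refine ⟨fun r hr => ?_⟩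
    have h1 : (r : Ω) ∈ Set.range (algebraMap M Ω) := by
      rw [InfiniteGalois.mem_range_algebraMap_iff_fixed]
      intro f
      exact congrArg Subtype.val (hr f)
    obtain ⟨m, hm⟩ := h1
    have h2 : IsIntegral A m := by
      have h3 := r.2
      rw [← hm] at h3
      exact (isIntegral_algHom_iff (e.restrictScalars A) e.injective).mp h3
    exact ⟨⟨m, h2⟩, Subtype.ext hm⟩
  -- the extension of `γ` to `Ω`
  let γ1 : Ω ≃ₐ[F] Ω := γ.liftNormal Ω
  have hγ1 : ∀ m : M, γ1 (e m) = e (γ m) := fun m => γ.liftNormal_commutes Ω m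
  let Γ : integralClosure A Ω ≃+* integralClosure A Ω :=
    ((γ1.restrictScalars A).mapIntegralClosure).toRingEquiv
  let γ' : integralClosure A M ≃+* integralClosure A M :=
    ((γ.restrictScalars A).mapIntegralClosure).toRingEquiv
  have hΓ : ∀ r, ((Γ r : integralClosure A Ω) : Ω) = γ1 r := fun _ => rfl
  have hγ' : ∀ r, ((γ' r : integralClosure A M) : M) = γ r := fun _ => rfl
  obtain ⟨Q, hQ, k, hk⟩ := InertA.core (G := Ω ≃ₐ[M] Ω) P hP hinj Γ γ'
    (fun b => Subtype.ext (by rw [hΓ, hi, hi, hγ', hγ1]))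
    (fun b => by
      obtain ⟨q, hq, h⟩ := hγ b
      have : γ' b - b = q := Subtype.ext (by rw [← h]; rfl)
      rw [this]
      exact hq)
  let τ : Ω ≃ₐ[F] Ω := γ1.trans (k.restrictScalars F)
  have hτ : ∀ r : integralClosure A Ω, ∃ q ∈ Q, τ (r : Ω) - r = q :=
    fun r => ⟨_, hk r, rfl⟩
  ext m
  have hm : e m ∈ unr A F Ω := by
    rw [← he]
    exact ⟨m, rfl⟩
  have h1 : τ (e m) = e m := hm Q hQ τ hτ
  have h2 : τ (e m) = e (γ m) := by
    change k (γ1 (e m)) = _
    rw [hγ1]
    exact k.commutes _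
  have h3 : e (γ m) = e m := by rw [← h2, h1]
  exact e.injective h3

end Pool.Agent.TH954.G
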