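import Mathlib
import Pool.Agent.TH954.G.Def

/-!
# Target `inert` (second seat): the inertia groups of the maximal unramified extension are trivial
-/

set_option autoImplicit false

namespace Pool.Agent.TH954.G

open scoped Pointwise

/-- the integral closure of `A` in `Ω` as an algebra over the one in `M` -/
@[reducible] def inertB_alg (A M Ω : Type) [CommRing A] [Field Ω] [Field M] [Algebra A Ω]
    [Algebra A M] [Algebra M Ω] [IsScalarTower A M Ω] :
    Algebra (integralClosure A M) (integralClosure A Ω) :=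
  ((IsScalarTower.toAlgHom A M Ω).mapIntegralClosure).toRingHom.toAlgebra

theorem inertB_main (A F Ω M : Type) [CommRing A]
    [Field F] [Field Ω] [Field M] [Algebra A F] [Algebra F Ω] [Algebra A Ω]
    [IsScalarTower A F Ω] [IsGalois F Ω] [Algebra F M] [Algebra A M] [IsScalarTower A F M]
    [Algebra M Ω] [IsScalarTower F M Ω] [IsScalarTower A M Ω]
    (hM : ∀ m : M, algebraMap M Ω m ∈ unr A F Ω)
    (P : Ideal (integralClosure A M)) (hP : P.IsMaximal) (γ : M ≃ₐ[F] M)
    (hγ : ∀ b : integralClosure A M, ∃ q ∈ P, γ (b : M) - b = q) : γ = 1 := by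
  classical
  let _ : Algebra (integralClosure A M) (integralClosure A Ω) := inertB_alg A M Ω
  have hmap : ∀ b : integralClosure A M,
      ((algebraMap (integralClosure A M) (integralClosure A Ω) b : integralClosure A Ω) : Ω) =
        algebraMap M Ω b := fun b => rfl
  have hgal : IsGalois M Ω := IsGalois.tower_top_of_isGalois F M Ω
  have _ : IsScalarTower A (integralClosure A M) (integralClosure A Ω) :=
    IsScalarTower.of_algebraMap_eq fun x => by
      apply Subtype.ext
      rw [hmap]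
      exact IsScalarTower.algebraMap_apply A M Ω x
  have hint : Algebra.IsIntegral (integralClosure A M) (integralClosure A Ω) :=
    ⟨fun r => (Algebra.IsIntegral.isIntegral (R := A) r).tower_top⟩
  have _ : SMulCommClass (Ω ≃ₐ[M] Ω) (integralClosure A M) (integralClosure A Ω) :=
    ⟨fun g b r => by
      apply Subtype.ext
      rw [Algebra.smul_def, Algebra.smul_def, smul_mul', MulMemClass.coe_mul,
        MulMemClass.coe_mul, integralClosure.coe_smul, hmap, AlgEquiv.smul_def, g.commutes]⟩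
  have _ : Algebra.IsInvariant (integralClosure A M) (integralClosure A Ω) (Ω ≃ₐ[M] Ω) :=
    ⟨fun r hr => by
      have h1 := (InfiniteGalois.mem_bot_iff_fixed (k := M) (K := Ω) (r : Ω)).2 (fun g => by
          have := congrArg (Subtype.val) (hr g)
          exact this)
      obtain ⟨m, hm⟩ := IntermediateField.mem_bot.1 h1
      have h3 : IsIntegral A m := by
        have h4 : IsIntegral A (r : Ω) := r.2
        rw [← hm] at h4
        exact (isIntegral_algebraMap_iff (algebraMap M Ω).injective).1 h4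
      exact ⟨⟨m, h3⟩, Subtype.ext hm⟩⟩
  let _ : TopologicalSpace (integralClosure A Ω) := ⊥
  have _ : DiscreteTopology (integralClosure A Ω) := ⟨rfl⟩
  have _ : ContinuousSMul (Ω ≃ₐ[M] Ω) (integralClosure A Ω) := by
    rw [continuousSMul_iff_stabilizer_isOpen]
    intro r
    have h1 := stabilizer_isOpen_of_isIntegral (K := M) (L := Ω) (r : Ω)
    convert h1 using 2
    ext g
    simp only [MulAction.mem_stabilizer_iff]
    exact Subtype.ext_iff
  -- a lift of `γ`
  obtain ⟨γ1, hγ1⟩ : ∃ γ1 : Ω ≃ₐ[F] Ω, ∀ m : M, γ1 (algebraMap M Ω m) = algebraMap M Ω (γ m) :=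
    ⟨γ.liftNormal Ω, fun m => γ.liftNormal_commutes Ω m⟩
  have hγ1' : ∀ m : M, γ1⁻¹ (algebraMap M Ω (γ m)) = algebraMap M Ω m := by
    intro m
    rw [← hγ1, ← AlgEquiv.mul_apply, inv_mul_cancel, AlgEquiv.one_apply]
  -- the ideal above
  have hinj : Function.Injective (algebraMap (integralClosure A M) (integralClosure A Ω)) := by
    intro x y hxy
    have := congrArg Subtype.val hxy
    rw [hmap, hmap] at this
    exact Subtype.ext ((algebraMap M Ω).injective this)
  obtain ⟨Q, hQ, hQP⟩ := Ideal.exists_ideal_over_maximal_of_isIntegral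
    (S := integralClosure A Ω) P (by
      rw [(RingHom.injective_iff_ker_eq_bot _).1 hinj]
      exact bot_le)
  have hmem : ∀ b : integralClosure A M,
      algebraMap (integralClosure A M) (integralClosure A Ω) b ∈ Q ↔ b ∈ P := by
    intro b
    rw [← hQP, Ideal.mem_comap]
  have hγP : ∀ b c : integralClosure A M, (c : M) = γ b → (b ∈ P ↔ c ∈ P) := by
    intro b c hc
    obtain ⟨q, hq, h1⟩ := hγ b
    have h2 : c = b + q := by
      apply Subtype.ext
      rw [hc, AddMemClass.coe_add, ← h1]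
      ring
    rw [h2]
    exact ⟨fun h => P.add_mem h hq, fun h => by simpa using P.sub_mem h hq⟩
  have hγint : ∀ b : integralClosure A M, ∃ c : integralClosure A M, (b : M) = γ c := by
    intro b
    refine ⟨⟨γ.symm b, ?_⟩, by simp⟩
    have h1 : IsIntegral A (b : M) := b.2
    exact h1.map (γ.symm.restrictScalars A)
  -- the transported ideal
  obtain ⟨Q1, hQ1d⟩ : ∃ Q1 : Ideal (integralClosure A Ω), Q1 = Q.comap
      (MulSemiringAction.toRingHom (Ω ≃ₐ[F] Ω) (integralClosure A Ω) γ1⁻¹) := ⟨_, rfl⟩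
  have hQ1 : ∀ r : integralClosure A Ω, r ∈ Q1 ↔ γ1⁻¹ • r ∈ Q := by
    intro r
    rw [hQ1d]
    exact Iff.rfl
  have _ : Q1.IsPrime := by
    rw [hQ1d]
    have _ := hQ.isPrime
    exact Ideal.comap_isPrime _ _
  have _ := hQ.isPrime
  have hund : Q1.under (integralClosure A M) = Q.under (integralClosure A M) := by
    ext b
    rw [Ideal.under, Ideal.under, Ideal.mem_comap, Ideal.mem_comap, hQ1, hmem]
    obtain ⟨c, hc⟩ := hγint b
    have h1 : γ1⁻¹ • (algebraMap (integralClosure A M) (integralClosure A Ω) b) =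
        algebraMap (integralClosure A M) (integralClosure A Ω) c := by
      apply Subtype.ext
      rw [integralClosure.coe_smul, hmap, hmap, AlgEquiv.smul_def, hc, hγ1']
    rw [h1, hmem]
    exact hγP c b hc
  obtain ⟨g, hg⟩ := Algebra.IsInvariant.exists_smul_of_under_eq_of_profinite
    (G := Ω ≃ₐ[M] Ω) Q1 Q hund
  obtain ⟨ψ, hψd⟩ : ∃ ψ : Ω ≃ₐ[F] Ω, ψ = g.restrictScalars F * γ1 := ⟨_, rfl⟩
  have hψv : ∀ z : Ω, ψ z = g (γ1 z) := by
    intro z
    rw [hψd]
    rfl
  have hψQ : ∀ r : integralClosure A Ω, ψ • r ∈ Q ↔ r ∈ Q := by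
    intro r
    nth_rewrite 1 [hg]
    rw [Ideal.mem_pointwise_smul_iff_inv_smul_mem, hQ1]
    have h1 : γ1⁻¹ • g⁻¹ • ψ • r = r := by
      apply Subtype.ext
      rw [integralClosure.coe_smul, integralClosure.coe_smul, integralClosure.coe_smul,
        AlgEquiv.smul_def, AlgEquiv.smul_def, AlgEquiv.smul_def, hψv]
      rw [← AlgEquiv.mul_apply g⁻¹ g, inv_mul_cancel, AlgEquiv.one_apply,
        ← AlgEquiv.mul_apply γ1⁻¹ γ1, inv_mul_cancel, AlgEquiv.one_apply]
    rw [h1]
  have hψB : ∀ b : integralClosure A M,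
      ψ • (algebraMap (integralClosure A M) (integralClosure A Ω) b) -
        algebraMap (integralClosure A M) (integralClosure A Ω) b ∈ Q := by
    intro b
    obtain ⟨q, hq, h1⟩ := hγ b
    have h2 : ψ • (algebraMap (integralClosure A M) (integralClosure A Ω) b) -
        algebraMap (integralClosure A M) (integralClosure A Ω) b =
        algebraMap (integralClosure A M) (integralClosure A Ω) q := by
      apply Subtype.ext
      rw [AddSubgroupClass.coe_sub, integralClosure.coe_smul, hmap, hmap, AlgEquiv.smul_def, hψv,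
        hγ1, g.commutes, ← map_sub, h1]
    rw [h2, hmem]
    exact hq
  have _ : Q.LiesOver P := ⟨hQP.symm⟩
  have hmapQ : Q = Q.map (MulSemiringAction.toRingEquiv (Ω ≃ₐ[F] Ω) (integralClosure A Ω) ψ :
      integralClosure A Ω →+* integralClosure A Ω) := by
    ext r
    rw [Ideal.map_comap_of_equiv, Ideal.mem_comap]
    have h1 := hψQ (ψ⁻¹ • r)
    rw [smul_inv_smul] at h1
    exact h1
  have hcomm : ∀ x : integralClosure A M ⧸ P,
      Ideal.quotientEquiv Q Q
        (MulSemiringAction.toRingEquiv (Ω ≃ₐ[F] Ω) (integralClosure A Ω) ψ) hmapQ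
        (algebraMap (integralClosure A M ⧸ P) (integralClosure A Ω ⧸ Q) x) =
        algebraMap (integralClosure A M ⧸ P) (integralClosure A Ω ⧸ Q) x := by
    intro x
    obtain ⟨b, rfl⟩ := Ideal.Quotient.mk_surjective x
    have h1 : algebraMap (integralClosure A M ⧸ P) (integralClosure A Ω ⧸ Q)
        (Ideal.Quotient.mk P b) =
        Ideal.Quotient.mk Q (algebraMap (integralClosure A M) (integralClosure A Ω) b) := rfl
    rw [h1, Ideal.quotientEquiv_mk, Ideal.Quotient.eq]
    exact hψB b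
  obtain ⟨h, hh⟩ := Ideal.Quotient.stabilizerHom_surjective_of_profinite (G := Ω ≃ₐ[M] Ω) P Q
    (AlgEquiv.ofRingEquiv hcomm)
  have hhr : ∀ r : integralClosure A Ω, (h : Ω ≃ₐ[M] Ω) • r - ψ • r ∈ Q := by
    intro r
    have h1 := DFunLike.congr_fun hh (Ideal.Quotient.mk Q r)
    have h2 : (AlgEquiv.ofRingEquiv hcomm) (Ideal.Quotient.mk Q r) =
      Ideal.Quotient.mk Q (ψ • r) := rfl
    have h3 : Ideal.Quotient.stabilizerHom Q P (Ω ≃ₐ[M] Ω) h (Ideal.Quotient.mk Q r) =
      Ideal.Quotient.mk Q ((h : Ω ≃ₐ[M] Ω) • r) := rfl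
    rw [h2, h3, Ideal.Quotient.eq] at h1
    exact h1
  have hhQ : ∀ r : integralClosure A Ω, r ∈ Q → (h : Ω ≃ₐ[M] Ω)⁻¹ • r ∈ Q := by
    intro r hr
    rw [← Ideal.mem_pointwise_smul_iff_inv_smul_mem]
    have h1 : (h : Ω ≃ₐ[M] Ω) • Q = Q := h.2
    rw [h1]
    exact hr
  obtain ⟨τ, hτd⟩ : ∃ τ : Ω ≃ₐ[F] Ω,
    τ = ((h : Ω ≃ₐ[M] Ω)⁻¹).restrictScalars F * ψ := ⟨_, rfl⟩
  have hτv : ∀ z : Ω, τ z = (h : Ω ≃ₐ[M] Ω)⁻¹ (ψ z) := by
    intro z
    rw [hτd]
    rfl
  have hτ : ∀ r : integralClosure A Ω, ∃ q ∈ Q, τ (r : Ω) - r = q := by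
    intro r
    refine ⟨(h : Ω ≃ₐ[M] Ω)⁻¹ • (ψ • r - (h : Ω ≃ₐ[M] Ω) • r), hhQ _ ?_, ?_⟩
    · have h1 := Q.neg_mem (hhr r)
      rwa [neg_sub] at h1
    · rw [smul_sub, inv_smul_smul, AddSubgroupClass.coe_sub, integralClosure.coe_smul,
        integralClosure.coe_smul, AlgEquiv.smul_def, AlgEquiv.smul_def, hτv]
  ext m
  have h1 := hM m Q hQ τ hτ
  rw [hτv, hψv, hγ1, g.commutes, AlgEquiv.commutes] at h1
  exact (algebraMap M Ω).injective h1

theorem inert : T_inert := by
  intro A F Ω M _ _ _ _ _ _ _ _ _ _ _ _ _ _ _ e he P hP γ hγ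
  let _ : Algebra M Ω := e.toRingHom.toAlgebra
  have _ : IsScalarTower F M Ω := IsScalarTower.of_algebraMap_eq fun x => (e.commutes x).symm
  have _ : IsScalarTower A M Ω := IsScalarTower.of_algebraMap_eq fun x => by
    rw [IsScalarTower.algebraMap_apply A F Ω, IsScalarTower.algebraMap_apply A F M]
    exact (e.commutes _).symm
  have _ : IsGalois F Ω := inferInstance
  refine inertB_main A F Ω M (fun m => ?_) P hP γ hγ
  rw [← he]
  exact ⟨m, rfl⟩

end Pool.Agent.TH954.G
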