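import Pool.Agent.TH954.G.Asc
import Pool.Agent.TH954.G.AsF
import Pool.Agent.TH954.G.InertA

/-!
# Elements of fundamental groups of affine curves fixed by the Galois group
-/

set_option autoImplicit false

namespace Pool.Agent.TH954.G

theorem main (p : ℕ) [Fact p.Prime] (K A F Ω M Ks : Type)
    [Field K] [Algebra (ZMod p) K] (hK : (⊤ : IntermediateField (ZMod p) K).FG)
    [CommRing A] [IsDomain A] [IsIntegrallyClosed A] [Algebra K A]
    [Field F] [Algebra A F] [IsFractionRing A F]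
    [Field Ω] [Algebra F Ω] [Algebra A Ω] [IsScalarTower A F Ω] [IsSepClosure F Ω]
    [Field M] [Algebra F M] [Algebra A M] [Algebra K M] [IsScalarTower A F M] [IsScalarTower K A M]
    (e : M →ₐ[F] Ω) (he : e.fieldRange = unr A F Ω)
    [Field Ks] [Algebra K Ks] [IsSepClosure K Ks] (x : A →ₐ[K] K) (S : PointSection K A F M Ks x)
    (γ : M ≃ₐ[F] M) (hγ : ∀ z, γ (S.j z) = S.j z) (hc : ∀ σ, γ * S.s σ = S.s σ * γ) : γ = 1 :=
  main0 asF inert p K A F Ω M Ks hK e he x S γ hγ hc

end Pool.Agent.TH954.G
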